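import Mathlib
import Pool.Agent.V1138.DE.Core

/-! MP_44eb1e_pr: the support of the deterministic equivalent `μ_A` of a variance profile
is the closed disc of radius `√ρ(V)`; in particular it is connected. -/

namespace Pool.Agent.Results.MP_44eb1e_pr.SupportDisc

open MeasureTheory Matrix

variable {n : ℕ}

/-- The matrix `A = (σ_ij)` is irreducible: the digraph with an edge `i → j` whenever
`σ_ij > 0` is strongly connected. -/
def Irred (σ : Matrix (Fin n) (Fin n) ℝ) : Prop :=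
  ∀ i j, Relation.ReflTransGen (fun a b => 0 < σ a b) i j

/-- `V = (1/n) (σ_ij²)`. -/
noncomputable def V (σ : Matrix (Fin n) (Fin n) ℝ) : Matrix (Fin n) (Fin n) ℝ :=
  fun i j => (σ i j) ^ 2 / n

/-- The spectral radius `ρ(V)` (largest modulus of a complex eigenvalue). -/
noncomputable def rho (σ : Matrix (Fin n) (Fin n) ℝ) : ℝ :=
  (spectralRadius ℂ ((V σ).map Complex.ofReal)).toReal

/-- `(q, r)` (with `r` for `q̃`) solves the Master Equations at `s`. -/
structure IsSol (σ : Matrix (Fin n) (Fin n) ℝ) (s : ℝ) (q r : Fin n → ℝ) : Prop where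
  q_nonneg : ∀ i, 0 ≤ q i
  r_nonneg : ∀ i, 0 ≤ r i
  eq_q : ∀ i, q i = ((V σ)ᵀ *ᵥ q) i / (s ^ 2 + (V σ *ᵥ r) i * ((V σ)ᵀ *ᵥ q) i)
  eq_r : ∀ i, r i = (V σ *ᵥ r) i / (s ^ 2 + (V σ *ᵥ r) i * ((V σ)ᵀ *ᵥ q) i)
  sum_eq : ∑ i, q i = ∑ i, r i

/-- `(q, r)` is the selected solution at `s`: the nonzero one for `s < √ρ(V)`, the zero one for
`s ≥ √ρ(V)`. -/
def Selected (σ : Matrix (Fin n) (Fin n) ℝ) (s : ℝ) (q r : Fin n → ℝ) : Prop :=
  IsSol σ s q r ∧ (s < √(rho σ) → ¬ (q = 0 ∧ r = 0)) ∧ (√(rho σ) ≤ s → q = 0 ∧ r = 0)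

/-- `1 - (1/n) ⟨q, V r⟩`, which is `F_A(s)` for the selected solution `(q, r)` at `s`. -/
noncomputable def FVal (σ : Matrix (Fin n) (Fin n) ℝ) (q r : Fin n → ℝ) : ℝ :=
  1 - (1 / n) * (q ⬝ᵥ (V σ *ᵥ r))

/-- `μ` is the deterministic equivalent `μ_A`: a radially symmetric probability measure on `ℂ`
with `μ {|z| ≤ s} = F_A(s)` for all `s > 0`. -/
structure IsDetEquiv (σ : Matrix (Fin n) (Fin n) ℝ) (μ : Measure ℂ) : Prop where
  prob : μ Set.univ = 1
  radial : ∀ c : ℂ, ‖c‖ = 1 → μ.map (fun z => c * z) = μ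
  cdf : ∀ s : ℝ, 0 < s → ∃ q r : Fin n → ℝ, Selected σ s q r ∧
    μ {z : ℂ | ‖z‖ ≤ s} = ENNReal.ofReal (FVal σ q r)

theorem V_nonneg (σ : Matrix (Fin n) (Fin n) ℝ) (i j : Fin n) : 0 ≤ V σ i j := by
  unfold V; positivity

theorem V_pos (hn : 0 < n) {σ : Matrix (Fin n) (Fin n) ℝ} {i j : Fin n} (h : 0 < σ i j) :
    0 < V σ i j := by
  have : (0:ℝ) < n := Nat.cast_pos.2 hn
  unfold V; positivity

theorem x_apply (σ : Matrix (Fin n) (Fin n) ℝ) (q : Fin n → ℝ) (i : Fin n) :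
    ((V σ)ᵀ *ᵥ q) i = ∑ j, V σ j i * q j := rfl

theorem y_apply (σ : Matrix (Fin n) (Fin n) ℝ) (r : Fin n → ℝ) (i : Fin n) :
    (V σ *ᵥ r) i = ∑ j, V σ i j * r j := rfl

/-- A nonzero solution is entrywise positive. -/
theorem pos_of_ne (hn : 0 < n) {σ : Matrix (Fin n) (Fin n) ℝ} (hirr : Irred σ) {s : ℝ}
    (hs : 0 < s) {q r : Fin n → ℝ} (h : IsSol σ s q r) (hne : ¬ (q = 0 ∧ r = 0)) :
    (∀ i, 0 < q i) ∧ (∀ i, 0 < r i) := by
  have hx0 : ∀ i, 0 ≤ ((V σ)ᵀ *ᵥ q) i := fun i => by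
    rw [x_apply]
    exact Finset.sum_nonneg fun j _ => mul_nonneg (V_nonneg σ j i) (h.q_nonneg j)
  have hy0 : ∀ i, 0 ≤ (V σ *ᵥ r) i := fun i => by
    rw [y_apply]
    exact Finset.sum_nonneg fun j _ => mul_nonneg (V_nonneg σ i j) (h.r_nonneg j)
  have hden : ∀ i, 0 < s ^ 2 + (V σ *ᵥ r) i * ((V σ)ᵀ *ᵥ q) i := fun i => by
    have := mul_nonneg (hy0 i) (hx0 i); positivity
  have hSq : 0 < ∑ i, q i := by
    by_contra hcon
    have hz : ∑ i, q i = 0 :=
      le_antisymm (not_lt.1 hcon) (Finset.sum_nonneg fun i _ => h.q_nonneg i)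
    have hz' : ∑ i, r i = 0 := by rw [← h.sum_eq]; exact hz
    refine hne ⟨?_, ?_⟩
    · funext i
      exact (Finset.sum_eq_zero_iff_of_nonneg fun i _ => h.q_nonneg i).1 hz i (Finset.mem_univ i)
    · funext i
      exact (Finset.sum_eq_zero_iff_of_nonneg fun i _ => h.r_nonneg i).1 hz' i (Finset.mem_univ i)
  have hSr : 0 < ∑ i, r i := by rw [← h.sum_eq]; exact hSq
  obtain ⟨i0, -, hi0⟩ := Finset.exists_ne_zero_of_sum_ne_zero hSq.ne'
  obtain ⟨j0, -, hj0⟩ := Finset.exists_ne_zero_of_sum_ne_zero hSr.ne'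
  have hi0' : 0 < q i0 := lt_of_le_of_ne (h.q_nonneg i0) (Ne.symm hi0)
  have hj0' : 0 < r j0 := lt_of_le_of_ne (h.r_nonneg j0) (Ne.symm hj0)
  refine ⟨fun i => ?_, fun i => ?_⟩
  · refine Relation.ReflTransGen.head_induction_on (motive := fun a _ => 0 < q a → 0 < q i)
      (hirr i0 i) id (fun {a c} hac _ ih ha => ih ?_) hi0'
    have hx : 0 < ((V σ)ᵀ *ᵥ q) c := by
      have : V σ a c * q a ≤ ((V σ)ᵀ *ᵥ q) c :=
        Finset.single_le_sum (f := fun j => (V σ)ᵀ c j * q j)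
          (fun j _ => mul_nonneg (V_nonneg σ j c) (h.q_nonneg j)) (Finset.mem_univ a)
      exact lt_of_lt_of_le (mul_pos (V_pos hn hac) ha) this
    rw [h.eq_q c]
    exact div_pos hx (hden c)
  · refine Relation.ReflTransGen.head_induction_on (motive := fun a _ => 0 < r a)
      (hirr i j0) hj0' (fun {a c} hac _ ih => ?_)
    have hx : 0 < (V σ *ᵥ r) a := by
      have : V σ a c * r c ≤ (V σ *ᵥ r) a :=
        Finset.single_le_sum (f := fun j => (V σ) a j * r j)
          (fun j _ => mul_nonneg (V_nonneg σ a j) (h.r_nonneg j)) (Finset.mem_univ c)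
      exact lt_of_lt_of_le (mul_pos (V_pos hn hac) ih) this
    rw [h.eq_r a]
    exact div_pos hx (hden a)

/-- Data of a positive solution in the form used by the entropy inequality. -/
theorem data (hn : 0 < n) {σ : Matrix (Fin n) (Fin n) ℝ} (hirr : Irred σ) {s : ℝ}
    (hs : 0 < s) {q r : Fin n → ℝ} (h : IsSol σ s q r) (hne : ¬ (q = 0 ∧ r = 0)) :
    ∃ d x y : Fin n → ℝ, (∀ i, 0 < d i) ∧ (∀ i, 0 < x i) ∧ (∀ i, 0 < y i) ∧
      (∀ i, y i = ∑ j, V σ i j * (d j * y j)) ∧ (∀ j, x j = ∑ i, V σ i j * (d i * x i)) ∧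
      (∀ i, d i * x i * y i = 1 - s ^ 2 * d i) ∧
      FVal σ q r = (1 / n) * ∑ i, s ^ 2 * d i := by
  obtain ⟨hq, hr⟩ := pos_of_ne hn hirr hs h hne
  set x : Fin n → ℝ := (V σ)ᵀ *ᵥ q with hx
  set y : Fin n → ℝ := V σ *ᵥ r with hy
  have hx0 : ∀ i, 0 ≤ x i := fun i => by
    rw [hx, x_apply]
    exact Finset.sum_nonneg fun j _ => mul_nonneg (V_nonneg σ j i) (h.q_nonneg j)
  have hy0 : ∀ i, 0 ≤ y i := fun i => by
    rw [hy, y_apply]
    exact Finset.sum_nonneg fun j _ => mul_nonneg (V_nonneg σ i j) (h.r_nonneg j)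
  have hden : ∀ i, 0 < s ^ 2 + y i * x i := fun i => by
    have := mul_nonneg (hy0 i) (hx0 i); positivity
  set d : Fin n → ℝ := fun i => 1 / (s ^ 2 + y i * x i) with hd
  have hdp : ∀ i, 0 < d i := fun i => one_div_pos.2 (hden i)
  have eq1 : ∀ i, q i = d i * x i := fun i => by
    rw [h.eq_q i, ← hx, ← hy]; simp only [hd]; field_simp
  have eq2 : ∀ i, r i = d i * y i := fun i => by
    rw [h.eq_r i, ← hx, ← hy]; simp only [hd]; field_simp
  have hxp : ∀ i, 0 < x i := fun i => by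
    have := hq i; rw [eq1 i] at this; exact pos_of_mul_pos_right this (hdp i).le
  have hyp : ∀ i, 0 < y i := fun i => by
    have := hr i; rw [eq2 i] at this; exact pos_of_mul_pos_right this (hdp i).le
  have hpi : ∀ i, d i * x i * y i = 1 - s ^ 2 * d i := fun i => by
    have := (hden i).ne'
    simp only [hd]; field_simp; ring
  refine ⟨d, x, y, hdp, hxp, hyp, fun i => ?_, fun j => ?_, hpi, ?_⟩
  · rw [hy]
    simp only [Matrix.mulVec, dotProduct]
    refine Finset.sum_congr rfl fun j _ => ?_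
    rw [eq2 j, hy]; rfl
  · rw [hx]
    simp only [Matrix.mulVec, dotProduct, Matrix.transpose_apply]
    refine Finset.sum_congr rfl fun i _ => ?_
    rw [eq1 i, hx]; rfl
  · have hn' : (n:ℝ) ≠ 0 := (Nat.cast_pos.2 hn).ne'
    have e : (q ⬝ᵥ (V σ *ᵥ r)) = ∑ i, (1 - s ^ 2 * d i) := by
      refine Finset.sum_congr rfl fun i _ => ?_
      rw [← hpi i, eq1 i]
    unfold FVal
    rw [e, Finset.sum_sub_distrib]
    simp only [Finset.sum_const, Finset.card_univ, Fintype.card_fin, nsmul_eq_mul, mul_one]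
    field_simp
    ring

theorem FVal_lt (hn : 0 < n) {σ : Matrix (Fin n) (Fin n) ℝ} (hirr : Irred σ) {s s' : ℝ}
    (hs : 0 < s) (hss' : s < s') {q r q' r' : Fin n → ℝ}
    (h : IsSol σ s q r) (hne : ¬ (q = 0 ∧ r = 0))
    (h' : IsSol σ s' q' r') (hne' : ¬ (q' = 0 ∧ r' = 0)) :
    FVal σ q r < FVal σ q' r' ∧ 0 < FVal σ q' r' := by
  obtain ⟨d, x, y, hd, hx, hy, ey, ex, hpi, hF⟩ := data hn hirr hs h hne
  obtain ⟨d', x', y', hd', hx', hy', ey', ex', hpi', hF'⟩ :=
    data hn hirr (hs.trans hss') h' hne'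
  have hn' : (0:ℝ) < n := Nat.cast_pos.2 hn
  have key := Pool.Agent.V1138.DE.strict hn (V σ) (V_nonneg σ) (s ^ 2) (s' ^ 2) (by positivity)
    (by nlinarith) d x y d' x' y' hd hx hy hd' hx' hy' ey ex ey' ex' hpi hpi'
  rw [hF, hF']
  refine ⟨mul_lt_mul_of_pos_left key (by positivity), ?_⟩
  have : 0 < ∑ i, s' ^ 2 * d' i :=
    Finset.sum_pos (fun i _ => mul_pos (pow_pos (hs.trans hss') 2) (hd' i))
      ⟨⟨0, hn⟩, Finset.mem_univ _⟩
  positivity

/-- Inside the open disc every point is in the support. -/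
theorem mem_support (hn : 0 < n) {σ : Matrix (Fin n) (Fin n) ℝ} (hirr : Irred σ)
    {μ : Measure ℂ} (hμ : IsDetEquiv σ μ) {z : ℂ} (hz0 : z ≠ 0) (hz : ‖z‖ < √(rho σ)) :
    z ∈ μ.support := by
  rw [(Metric.nhds_basis_ball (x := z)).mem_measureSupport]
  intro ε hε
  by_contra hcon
  have hzero : μ (Metric.ball z ε) = 0 := le_antisymm (not_lt.1 hcon) zero_le
  have hzpos : 0 < ‖z‖ := norm_pos_iff.2 hz0
  obtain ⟨δ, hδ0, hδ1, hδ2, hδ3⟩ : ∃ δ > 0, δ < ε ∧ δ < ‖z‖ ∧ ‖z‖ + δ < √(rho σ) := by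
    refine ⟨min (ε / 2) (min (‖z‖ / 2) ((√(rho σ) - ‖z‖) / 2)), ?_, ?_, ?_, ?_⟩
    · exact lt_min (by linarith) (lt_min (by linarith) (by linarith))
    · exact lt_of_le_of_lt (min_le_left _ _) (by linarith)
    · exact lt_of_le_of_lt ((min_le_right _ _).trans (min_le_left _ _)) (by linarith)
    · have := (min_le_right (ε / 2) (min (‖z‖ / 2) ((√(rho σ) - ‖z‖) / 2))).trans
        (min_le_right _ _)
      linarith
  -- rotations preserve the measure
  have hrot : ∀ c : ℂ, ‖c‖ = 1 → μ (Metric.ball (c * z) ε) = 0 := by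
    intro c hc
    have hm : μ (Metric.ball (c * z) ε) = μ.map (fun w => c * w) (Metric.ball (c * z) ε) := by
      rw [hμ.radial c hc]
    rw [hm, Measure.map_apply (measurable_const_mul c) Metric.isOpen_ball.measurableSet]
    refine measure_mono_null (fun w hw => ?_) hzero
    simp only [Set.mem_preimage, Metric.mem_ball, dist_eq_norm] at hw ⊢
    rwa [← mul_sub, norm_mul, hc, one_mul] at hw
  -- the closed annulus has measure zero
  set K : Set ℂ := {w | ‖z‖ - δ ≤ ‖w‖ ∧ ‖w‖ ≤ ‖z‖ + δ} with hK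
  have hKc : IsCompact K := by
    refine (isCompact_closedBall (0:ℂ) (‖z‖ + δ)).of_isClosed_subset ?_ ?_
    · exact (isClosed_le continuous_const continuous_norm).inter
        (isClosed_le continuous_norm continuous_const)
    · intro w hw
      simpa using hw.2
  have hKz : μ K = 0 := by
    refine hKc.measure_zero_of_nhdsWithin fun w hw => ?_
    have hw0 : 0 < ‖w‖ := lt_of_lt_of_le (by linarith) hw.1
    have hwne : w ≠ 0 := norm_pos_iff.1 hw0
    set c : ℂ := (w / (‖w‖ : ℂ)) * ((‖z‖ : ℂ) / z) with hc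
    have hwn : (‖w‖ : ℂ) ≠ 0 := by exact_mod_cast hw0.ne'
    have hzn : (‖z‖ : ℂ) ≠ 0 := by exact_mod_cast hzpos.ne'
    have hcn : ‖c‖ = 1 := by
      rw [hc, norm_mul, norm_div, norm_div, Complex.norm_real, Complex.norm_real, norm_norm,
        norm_norm, div_self hw0.ne', div_self hzpos.ne', one_mul]
    refine ⟨Metric.ball (c * z) ε, mem_nhdsWithin_of_mem_nhds
      (Metric.isOpen_ball.mem_nhds ?_), hrot c hcn⟩
    rw [Metric.mem_ball, dist_eq_norm]
    have e : w - c * z = (w / (‖w‖ : ℂ)) * (((‖w‖ - ‖z‖ : ℝ)) : ℂ) := by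
      rw [hc]; push_cast; field_simp
    rw [e, norm_mul, norm_div, Complex.norm_real, norm_norm, div_self hw0.ne', one_mul,
      Complex.norm_real, Real.norm_eq_abs]
    refine lt_of_le_of_lt (abs_le.2 ⟨?_, ?_⟩) hδ1
    · have := hw.1; linarith
    · have := hw.2; linarith
  -- but the distribution function increases strictly
  obtain ⟨q, r, hsel, hF⟩ := hμ.cdf (‖z‖ - δ) (by linarith)
  obtain ⟨q', r', hsel', hF'⟩ := hμ.cdf (‖z‖ + δ) (by linarith)
  have hlt := FVal_lt hn hirr (by linarith) (by linarith) hsel.1 (hsel.2.1 (by linarith))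
    hsel'.1 (hsel'.2.1 hδ3)
  have hle : μ {w : ℂ | ‖w‖ ≤ ‖z‖ + δ} ≤ μ {w : ℂ | ‖w‖ ≤ ‖z‖ - δ} + μ K := by
    refine (measure_mono fun w hw => ?_).trans (measure_union_le _ _)
    rcases le_total ‖w‖ (‖z‖ - δ) with h1 | h1
    · exact Or.inl h1
    · exact Or.inr ⟨h1, hw⟩
  rw [hKz, add_zero, hF, hF'] at hle
  exact absurd hle (not_le.2 ((ENNReal.ofReal_lt_ofReal_iff hlt.2).2 hlt.1))

theorem FVal_zero (σ : Matrix (Fin n) (Fin n) ℝ) : FVal σ 0 0 = 1 := by
  unfold FVal; simp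

/-- The support of the deterministic equivalent is the closed disc of radius `√ρ(V)`. -/
theorem support_eq (hn : 0 < n) {σ : Matrix (Fin n) (Fin n) ℝ} (hirr : Irred σ)
    {μ : Measure ℂ} (hμ : IsDetEquiv σ μ) :
    μ.support = Metric.closedBall 0 (√(rho σ)) := by
  have : IsProbabilityMeasure μ := ⟨hμ.prob⟩
  have hR : 0 ≤ √(rho σ) := Real.sqrt_nonneg _
  have hone : ∀ s : ℝ, √(rho σ) ≤ s → 0 < s → μ {z : ℂ | ‖z‖ ≤ s} = 1 := by
    intro s hs hs0
    obtain ⟨q, r, hsel, hF⟩ := hμ.cdf s hs0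
    obtain ⟨rfl, rfl⟩ := hsel.2.2 hs
    rw [hF, FVal_zero, ENNReal.ofReal_one]
  have hsub : μ.support ⊆ Metric.closedBall 0 (√(rho σ)) := by
    intro w hw
    by_contra hcon
    rw [Metric.mem_closedBall, dist_zero_right, not_le] at hcon
    obtain ⟨s, hs1, hs2⟩ := exists_between hcon
    have h1 := hone s hs1.le (lt_of_le_of_lt hR hs1)
    have hnull : μ {z : ℂ | ‖z‖ ≤ s}ᶜ = 0 := by
      rw [measure_compl (isClosed_le continuous_norm continuous_const).measurableSet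
        (measure_ne_top _ _), h1, measure_univ, tsub_self]
    have hpos := (Measure.mem_support_iff_forall w).1 hw {z : ℂ | ‖z‖ ≤ s}ᶜ
      ((isClosed_le continuous_norm continuous_const).isOpen_compl.mem_nhds
        (by simpa using hs2))
    rw [hnull] at hpos
    exact lt_irrefl _ hpos
  refine Set.Subset.antisymm hsub ?_
  rcases hR.lt_or_eq with hpos | hzero
  · have hcl : closure (Metric.ball (0:ℂ) (√(rho σ)) \ {0}) = Metric.closedBall 0 (√(rho σ)) := by
      have h1 : closure (Metric.ball (0:ℂ) (√(rho σ)) \ {0}) =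
          closure (Metric.ball (0:ℂ) (√(rho σ))) := by
        refine Set.Subset.antisymm (closure_mono Set.sdiff_subset) ?_
        refine closure_minimal ?_ isClosed_closure
        have h2 : Dense ({0}ᶜ : Set ℂ) := dense_compl_singleton 0
        have h3 := h2.open_subset_closure_inter (Metric.isOpen_ball (x := (0:ℂ)) (ε := √(rho σ)))
        rwa [Set.sdiff_eq]
      rw [h1, closure_ball _ hpos.ne']
    rw [← hcl]
    refine closure_minimal (fun w hw => ?_) Measure.isClosed_support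
    exact mem_support hn hirr hμ (by simpa using hw.2) (by simpa using hw.1)
  · rw [← hzero, Metric.closedBall_zero]
    have hne : (μ.support).Nonempty := by
      by_contra hcon
      rw [Set.not_nonempty_iff_eq_empty] at hcon
      have h1 : μ μ.supportᶜ = 0 := Measure.measure_compl_support
      rw [hcon, Set.compl_empty, measure_univ] at h1
      exact one_ne_zero h1
    obtain ⟨w, hw⟩ := hne
    have := hsub hw
    rw [← hzero, Metric.closedBall_zero, Set.mem_singleton_iff] at this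
    rw [Set.singleton_subset_iff, ← this]
    exact hw

/-- **MP_44eb1e_pr, Q1 (proved).** For every `n ≥ 1` and every irreducible nonnegative `A` for
which the deterministic equivalent `μ_A` is defined, the support of `μ_A` is connected; it is the
closed disc of radius `√ρ(V)`. -/
theorem result : ∀ n : ℕ, 1 ≤ n → ∀ σ : Matrix (Fin n) (Fin n) ℝ, (∀ i j, 0 ≤ σ i j) →
    Irred σ → ∀ μ : Measure ℂ, IsDetEquiv σ μ →
      IsConnected μ.support ∧ μ.support = Metric.closedBall 0 (√(rho σ)) := by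
  intro n hn σ _ hirr μ hμ
  have h := support_eq hn hirr hμ
  refine ⟨?_, h⟩
  rw [h]
  exact (Metric.isConnected_closedBall (Real.sqrt_nonneg _))

end Pool.Agent.Results.MP_44eb1e_pr.SupportDisc
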